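import Pool.Agent.H733Z.Erw3

set_option autoImplicit false

open MeasureTheory Filter

namespace Pool.Agent.Results.MP_54d550_pr.ATransientAtOne

open Pool.H878.ERW in
/-- There is a stationary ergodic, weakly elliptic law of cookie environments with boundedly many
cookies per site and expected drift `δ = 1` for which the first walker (`k = 1 ≥ δ`) is transient:
`|X n| → ∞` almost surely. -/
theorem result : ∃ (Ω : Type) (_ : MeasurableSpace Ω) (μ : Measure Ω) (_ : IsProbabilityMeasure μ)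
    (env : Ω → ℤ → ℕ → ℝ) (X : ℕ → Ω → ℤ),
    Measurable env ∧ (∀ n, Measurable (X n)) ∧ (∀ w z i, env w z i ∈ Set.Icc (0:ℝ) 1) ∧
    IsERW μ env X ∧
    Ergodic (fun (e : ℤ → ℕ → ℝ) (z : ℤ) => e (z + 1)) (μ.map env) ∧
    (∃ M : ℕ, ∀ᵐ w ∂μ, ∀ z i, M < i → env w z i = 1 / 2) ∧
    (∀ z, 0 < μ {w | ∀ i, 1 ≤ i → 0 < env w z i}) ∧
    (∀ z, 0 < μ {w | ∀ i, 1 ≤ i → env w z i < 1}) ∧
    (∫ w, (∑' i : ℕ, (2 * env w 0 (i + 1) - 1)) ∂μ = 1) ∧
    ∀ᵐ w ∂μ, Tendsto (fun n => |X n w|) atTop atTop :=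
  Pool.Agent.H733Z.Erw.main_tr

end Pool.Agent.Results.MP_54d550_pr.ATransientAtOne
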